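import Pool.Agent.H91.Kato

set_option autoImplicit false

open H91.Kato in
theorem Pool.Agent.Results.MP_97dcc2_an.Closed.result :
    ∀ (N : ℕ) (Ω : Set (EuclideanSpace ℝ (Fin N))), IsOpen Ω → ∀ g : ℝ → ℝ,
    Continuous g → (∀ t, 0 ≤ g t * t) →
    ∀ (u : ℕ → EuclideanSpace ℝ (Fin N) → ℝ) (v : EuclideanSpace ℝ (Fin N) → ℝ),
      (∀ n, MeasureTheory.IntegrableOn (u n) Ω ∧ MeasureTheory.IntegrableOn (fun x => g (u n x)) Ω ∧
        H91.Kato.Sup Ω (u n) fun x => g (u n x)) →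
      (∃ C : ℝ, ∀ n, ∫ x in Ω, |g (u n x)| ≤ C) → MeasureTheory.IntegrableOn v Ω →
      Filter.Tendsto (fun n => ∫ x in Ω, |u n x - v x|) Filter.atTop (nhds 0) →
      MeasureTheory.IntegrableOn (fun x => g (v x)) Ω ∧ H91.Kato.Sup Ω v fun x => g (v x) :=
  main
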